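import Mathlib

open MvPolynomial

universe u

namespace Pool.Agent.Lib.MP_66748c_al

section Defs

variable (k : Type u) [Field k] (n : ℕ)

/-- The divided power derivation `D_{t,i}` of `k[x_1, ..., x_n]`: the `k`-linear map sending the
monomial with exponent vector `m` to `binom(m_i, t)` times the monomial with exponent vector
`m - t e_i` (the coefficient vanishes when `m_i < t`). -/
noncomputable def divD (i : Fin n) (t : ℕ) : Module.End k (MvPolynomial (Fin n) k) :=
  (basisMonomials (Fin n) k).constr k fun m =>
    monomial (m - Finsupp.single i t) ((m i).choose t : k)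

/-- The ring of differential operators: the `k`-subalgebra of `End_k (k[x_1, ..., x_n])` generated
by the multiplication maps and the `D_{t,i}`. -/
noncomputable def DiffOp : Subalgebra k (Module.End k (MvPolynomial (Fin n) k)) :=
  Algebra.adjoin k ({P | ∃ f : MvPolynomial (Fin n) k, P = LinearMap.mulLeft k f} ∪
    {P | ∃ (i : Fin n) (t : ℕ), P = divD k n i t})

/-- The ring of differential operators, as a type. It acts on `k[x_1, ..., x_n]` by evaluation of
operators (the instances of Mathlib for subalgebras of endomorphism rings). -/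
abbrev DOp : Type u := ↥(DiffOp k n)

/-- The ring structure that Mathlib gives to the subalgebra, recorded to help instance search. -/
noncomputable instance : Ring (DOp k n) := inferInstance

/-- The Bernstein filtration: `bernstein k n s` is the `k`-span of the operators
`x_1^{a_1} ... x_n^{a_n} D_{t_1,1} ... D_{t_n,n}` with `∑ a_i + ∑ t_i ≤ s`. -/
noncomputable def bernstein (s : ℕ) : Submodule k (DOp k n) :=
  Submodule.span k {P | ∃ a t : Fin n → ℕ, ∑ i, a i + ∑ i, t i ≤ s ∧
    (P : Module.End k (MvPolynomial (Fin n) k)) =
      LinearMap.mulLeft k (∏ i, X i ^ a i) * (List.ofFn fun i => divD k n i (t i)).prod}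

/-- `k`-filtrations of a module `M` over the ring of differential operators: ascending chains
`M_0 ⊆ M_1 ⊆ ...` of `k`-subspaces with union `M` and `F_i M_j ⊆ M_{i+j}`, where `F` is the
Bernstein filtration. -/
structure IsKFiltration {M : Type u} [AddCommGroup M] [Module (DOp k n) M] [Module k M]
    [IsScalarTower k (DOp k n) M] (Mf : ℕ → Submodule k M) : Prop where
  mono : Monotone Mf
  exhaustive : ∀ m : M, ∃ i, m ∈ Mf i
  smul_mem : ∀ i j : ℕ, ∀ P ∈ bernstein k n i, ∀ m ∈ Mf j, P • m ∈ Mf (i + j)

/-- Holonomic modules: there are a `k`-filtration and a constant `C` with `dim_k M_i ≤ C i^n` for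
all `i ≥ 1`. -/
def Holonomic (M : Type u) [AddCommGroup M] [Module (DOp k n) M] [Module k M]
    [IsScalarTower k (DOp k n) M] : Prop :=
  ∃ Mf : ℕ → Submodule k M, IsKFiltration k n Mf ∧
    ∃ C : ℕ, ∀ i : ℕ, 1 ≤ i → Module.rank k (Mf i) ≤ ((C * i ^ n : ℕ) : Cardinal)

end Defs

end Pool.Agent.Lib.MP_66748c_al
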