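import Mathlib
import Pool.Agent.Lib.MP_66748c_al.Defs

open MvPolynomial

universe u

namespace Pool.Agent.Lib.MP_66748c_al

section Choose

variable {p : ℕ} [hp : Fact p.Prime]

lemma choose_add_modEq (s : ℕ) : ∀ (A v t : ℕ), t < p ^ s →
    (p ^ s * A + v).choose t ≡ v.choose t [MOD p] := by
  induction s with
  | zero =>
    intro A v t ht
    have : t = 0 := by simpa using ht
    subst this
    simp only [Nat.choose_zero_right]
    rfl
  | succ s ih =>
    intro A v t ht
    have hp0 : 0 < p := hp.out.pos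
    have h1 := Choose.choose_modEq_choose_mod_mul_choose_div_nat (n := p ^ (s + 1) * A + v)
      (k := t) (p := p)
    have h2 := Choose.choose_modEq_choose_mod_mul_choose_div_nat (n := v) (k := t) (p := p)
    have e1 : (p ^ (s + 1) * A + v) % p = v % p := by
      rw [pow_succ', mul_assoc, Nat.mul_add_mod]
    have e2 : (p ^ (s + 1) * A + v) / p = p ^ s * A + v / p := by
      rw [pow_succ', mul_assoc, Nat.mul_add_div hp0]
    have e3 : t / p < p ^ s := by
      rw [Nat.div_lt_iff_lt_mul hp0, ← pow_succ]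
      exact ht
    rw [e1, e2] at h1
    exact h1.trans (((ih A (v / p) (t / p) e3).mul_left _).trans h2.symm)

lemma choose_mul_modEq (s : ℕ) : ∀ (A j : ℕ),
    (p ^ s * A).choose (p ^ s * j) ≡ A.choose j [MOD p] := by
  induction s with
  | zero =>
    intro A j
    simp only [pow_zero, one_mul]
    rfl
  | succ s ih =>
    intro A j
    have hp0 : 0 < p := hp.out.pos
    have h1 := Choose.choose_modEq_choose_mod_mul_choose_div_nat (n := p ^ (s + 1) * A)
      (k := p ^ (s + 1) * j) (p := p)
    have e1 : ∀ B, (p ^ (s + 1) * B) % p = 0 := by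
      intro B
      rw [pow_succ', mul_assoc, Nat.mul_mod_right]
    have e2 : ∀ B, (p ^ (s + 1) * B) / p = p ^ s * B := by
      intro B
      rw [pow_succ', mul_assoc, Nat.mul_div_cancel_left _ hp0]
    rw [e1, e1, e2, e2, Nat.choose_zero_right, one_mul] at h1
    exact h1.trans (ih A j)

variable (k : Type u) [Field k] [CharP k p]

lemma cast_choose_add {s A v t : ℕ} (h : t < p ^ s) :
    (((p ^ s * A + v).choose t : ℕ) : k) = (v.choose t : k) :=
  (CharP.natCast_eq_natCast k p).2 (choose_add_modEq s A v t h)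

lemma cast_choose_mul {s A j : ℕ} :
    (((p ^ s * A).choose (p ^ s * j) : ℕ) : k) = (A.choose j : k) :=
  (CharP.natCast_eq_natCast k p).2 (choose_mul_modEq s A j)

end Choose

section Basic

variable {k : Type u} [Field k] {n : ℕ}

lemma divD_monomial (i : Fin n) (t : ℕ) (m : Fin n →₀ ℕ) (c : k) :
    divD k n i t (monomial m c) = monomial (m - Finsupp.single i t) (c * ((m i).choose t : k)) := by
  have h1 : monomial m c = c • (basisMonomials (Fin n) k) m := by
    rw [coe_basisMonomials, smul_monomial, smul_eq_mul, mul_one]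
  rw [h1, map_smul, divD, Module.Basis.constr_basis, smul_monomial, smul_eq_mul]

lemma divD_zero (i : Fin n) : divD k n i 0 = 1 := by
  apply MvPolynomial.linearMap_ext
  intro m
  ext c
  simp [divD_monomial]

/-- The action on polynomials. -/
lemma smul_def (P : DOp k n) (f : MvPolynomial (Fin n) k) :
    P • f = (P : Module.End k (MvPolynomial (Fin n) k)) f := rfl

lemma mulLeft_mem (f : MvPolynomial (Fin n) k) : LinearMap.mulLeft k f ∈ DiffOp k n :=
  Algebra.subset_adjoin (Or.inl ⟨f, rfl⟩)

lemma divD_mem (i : Fin n) (t : ℕ) : divD k n i t ∈ DiffOp k n :=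
  Algebra.subset_adjoin (Or.inr ⟨i, t, rfl⟩)

/-- The span of the powers `x_i ^ (q A)`. -/
noncomputable def Cst (k : Type u) [Field k] {n : ℕ} (i : Fin n) (q : ℕ) :
    Submodule k (MvPolynomial (Fin n) k) :=
  Submodule.span k {f | ∃ A : ℕ, f = monomial (Finsupp.single i (q * A)) 1}

lemma Cst_mono (i : Fin n) {p s s' : ℕ} (h : s ≤ s') : Cst k i (p ^ s') ≤ Cst k i (p ^ s) := by
  refine Submodule.span_mono ?_
  rintro _ ⟨A, rfl⟩
  obtain ⟨e, rfl⟩ := Nat.exists_eq_add_of_le h
  exact ⟨p ^ e * A, by rw [pow_add, mul_assoc]⟩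

lemma divD_comm {p : ℕ} [Fact p.Prime] [CharP k p] (i0 i : Fin n) (t s : ℕ) (hts : t < p ^ s)
    (f : MvPolynomial (Fin n) k) (hf : f ∈ Cst k i0 (p ^ s)) (r : MvPolynomial (Fin n) k) :
    divD k n i t (f * r) = f * divD k n i t r := by
  induction hf using Submodule.span_induction with
  | zero => simp
  | add x y _ _ hx hy => rw [add_mul, map_add, hx, hy, add_mul]
  | smul c x _ hx => rw [smul_mul_assoc, map_smul, hx, smul_mul_assoc]
  | mem x hx =>
    obtain ⟨A, rfl⟩ := hx
    induction r using MvPolynomial.induction_on' with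
    | add p q hp hq => rw [mul_add, map_add, hp, hq, map_add, mul_add]
    | monomial m c =>
      rw [monomial_mul, one_mul, divD_monomial, divD_monomial, monomial_mul, one_mul]
      by_cases hi : i = i0
      · subst hi
        have e1 : (Finsupp.single i (p ^ s * A) + m) i = p ^ s * A + m i := by simp
        rw [e1, cast_choose_add k hts]
        rcases lt_or_ge (m i) t with h | h
        · rw [Nat.choose_eq_zero_of_lt h]
          simp
        · have e2 : Finsupp.single i (p ^ s * A) + m - Finsupp.single i t =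
              Finsupp.single i (p ^ s * A) + (m - Finsupp.single i t) := by
            ext j
            simp only [Finsupp.coe_tsub, Finsupp.coe_add, Pi.sub_apply, Pi.add_apply]
            rcases eq_or_ne j i with rfl | hj
            · simp only [Finsupp.single_eq_same]
              omega
            · simp [hj]
          rw [e2]
      · have e1 : (Finsupp.single i0 (p ^ s * A) + m) i = m i := by simp [hi]
        have e2 : Finsupp.single i0 (p ^ s * A) + m - Finsupp.single i t =
            Finsupp.single i0 (p ^ s * A) + (m - Finsupp.single i t) := by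
          ext j
          simp only [Finsupp.coe_tsub, Finsupp.coe_add, Pi.sub_apply, Pi.add_apply]
          rcases eq_or_ne j i with rfl | hj
          · simp [hi]
          · simp [hj]
        rw [e1, e2]

lemma diffOp_comm {p : ℕ} [hp : Fact p.Prime] [CharP k p] (i0 : Fin n)
    (P : Module.End k (MvPolynomial (Fin n) k)) (hP : P ∈ DiffOp k n) :
    ∃ T : ℕ, ∀ f ∈ Cst k i0 (p ^ T), ∀ r, P (f * r) = f * P r := by
  induction hP using Algebra.adjoin_induction with
  | mem x hx =>
    rcases hx with ⟨g, rfl⟩ | ⟨i, t, rfl⟩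
    · refine ⟨0, fun f _ r => ?_⟩
      rw [LinearMap.mulLeft_apply, LinearMap.mulLeft_apply]
      ring
    · refine ⟨t, fun f hf r => ?_⟩
      exact divD_comm i0 i t t (Nat.lt_pow_self hp.out.one_lt) f hf r
  | algebraMap c =>
    refine ⟨0, fun f _ r => ?_⟩
    simp
  | add x y _ _ hx hy =>
    obtain ⟨T1, h1⟩ := hx
    obtain ⟨T2, h2⟩ := hy
    refine ⟨max T1 T2, fun f hf r => ?_⟩
    rw [LinearMap.add_apply, LinearMap.add_apply, h1 f (Cst_mono i0 (le_max_left _ _) hf),
      h2 f (Cst_mono i0 (le_max_right _ _) hf), mul_add]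
  | mul x y _ _ hx hy =>
    obtain ⟨T1, h1⟩ := hx
    obtain ⟨T2, h2⟩ := hy
    refine ⟨max T1 T2, fun f hf r => ?_⟩
    rw [Module.End.mul_apply, Module.End.mul_apply, h2 f (Cst_mono i0 (le_max_right _ _) hf),
      h1 f (Cst_mono i0 (le_max_left _ _) hf)]

end Basic

section Extension

variable {k : Type u} [Field k] {n : ℕ}

/-- The submodule of eventually zero sequences. -/
noncomputable def Zseq (k : Type u) [Field k] (n : ℕ) : Submodule (DOp k n) (ℕ → MvPolynomial (Fin n) k) where
  carrier := {v | ∀ᶠ N in Filter.atTop, v N = 0}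
  add_mem' := by
    intro a b ha hb
    filter_upwards [ha, hb] with N h1 h2
    simp [h1, h2]
  zero_mem' := Filter.Eventually.of_forall fun _ => rfl
  smul_mem' := by
    intro P v hv
    filter_upwards [hv] with N h1
    rw [Pi.smul_apply, h1, smul_zero]

/-- Conditions on a sequence of polynomials that let it define an extension of `R` by `R`. -/
structure Admissible (g : ℕ → MvPolynomial (Fin n) k) : Prop where
  comm : ∀ P : DOp k n, ∀ r : MvPolynomial (Fin n) k, ∃ c : MvPolynomial (Fin n) k,
    ∀ᶠ N in Filter.atTop, P • (r * g N) = (P • r) * g N + c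
  indep : ∀ r r' : MvPolynomial (Fin n) k, (∀ᶠ N in Filter.atTop, r * g N + r' = 0) →
    r = 0 ∧ r' = 0

/-- The sequence `r g_N + r'`. -/
noncomputable def gm (g : ℕ → MvPolynomial (Fin n) k) (r r' : MvPolynomial (Fin n) k) :
    ℕ → MvPolynomial (Fin n) k := fun N => r * g N + r'

lemma mk_eq_mk {u v : ℕ → MvPolynomial (Fin n) k} :
    (Zseq k n).mkQ u = (Zseq k n).mkQ v ↔ ∀ᶠ N in Filter.atTop, u N = v N := by
  rw [Submodule.mkQ_apply, Submodule.mkQ_apply, Submodule.Quotient.eq]
  constructor
  · intro h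
    filter_upwards [h] with N h1
    exact sub_eq_zero.1 h1
  · intro h
    show ∀ᶠ N in Filter.atTop, (u - v) N = 0
    filter_upwards [h] with N h1
    exact sub_eq_zero.2 h1

/-- The extension. -/
noncomputable def Ext (g : ℕ → MvPolynomial (Fin n) k) (hg : Admissible g) :
    Submodule (DOp k n) ((ℕ → MvPolynomial (Fin n) k) ⧸ Zseq k n) where
  carrier := {x | ∃ r r', x = (Zseq k n).mkQ (gm g r r')}
  add_mem' := by
    rintro _ _ ⟨r1, r1', rfl⟩ ⟨r2, r2', rfl⟩
    refine ⟨r1 + r2, r1' + r2', ?_⟩
    rw [← map_add]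
    congr 1
    ext1 N
    simp only [gm, Pi.add_apply]
    ring
  zero_mem' := ⟨0, 0, by
    rw [← map_zero (Zseq k n).mkQ]
    congr 1
    ext1 N
    simp [gm]⟩
  smul_mem' := by
    rintro P _ ⟨r, r', rfl⟩
    obtain ⟨c, hc⟩ := hg.comm P r
    refine ⟨P • r, c + P • r', ?_⟩
    rw [← map_smul, mk_eq_mk]
    filter_upwards [hc] with N h1
    simp only [gm, Pi.smul_apply, smul_add, h1]
    ring

/-- The element `r g + r'` of the extension. -/
noncomputable def elt (g : ℕ → MvPolynomial (Fin n) k) (hg : Admissible g)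
    (r r' : MvPolynomial (Fin n) k) : Ext g hg :=
  ⟨(Zseq k n).mkQ (gm g r r'), r, r', rfl⟩

lemma elt_surj (g : ℕ → MvPolynomial (Fin n) k) (hg : Admissible g) (x : Ext g hg) :
    ∃ r r', x = elt g hg r r' := by
  obtain ⟨_, r, r', rfl⟩ := x
  exact ⟨r, r', rfl⟩

lemma elt_eq_iff (g : ℕ → MvPolynomial (Fin n) k) (hg : Admissible g)
    {r r' s s' : MvPolynomial (Fin n) k} : elt g hg r r' = elt g hg s s' ↔
    ∀ᶠ N in Filter.atTop, r * g N + r' = s * g N + s' := by
  rw [Subtype.ext_iff]
  exact mk_eq_mk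

lemma elt_inj (g : ℕ → MvPolynomial (Fin n) k) (hg : Admissible g)
    {r r' s s' : MvPolynomial (Fin n) k} : elt g hg r r' = elt g hg s s' ↔ r = s ∧ r' = s' := by
  rw [elt_eq_iff]
  constructor
  · intro h
    have h1 := hg.indep (r - s) (r' - s') (by
      filter_upwards [h] with N h1
      linear_combination h1)
    exact ⟨sub_eq_zero.1 h1.1, sub_eq_zero.1 h1.2⟩
  · rintro ⟨rfl, rfl⟩
    exact Filter.Eventually.of_forall fun _ => rfl

lemma elt_add (g : ℕ → MvPolynomial (Fin n) k) (hg : Admissible g)
    (r r' s s' : MvPolynomial (Fin n) k) :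
    elt g hg (r + s) (r' + s') = elt g hg r r' + elt g hg s s' := by
  apply Subtype.ext
  refine Eq.trans ?_ (map_add (Zseq k n).mkQ _ _)
  refine mk_eq_mk.2 (Filter.Eventually.of_forall fun N => ?_)
  simp only [gm, Pi.add_apply]
  ring

lemma elt_sub (g : ℕ → MvPolynomial (Fin n) k) (hg : Admissible g)
    (r r' s s' : MvPolynomial (Fin n) k) :
    elt g hg (r - s) (r' - s') = elt g hg r r' - elt g hg s s' := by
  rw [eq_sub_iff_add_eq, ← elt_add, sub_add_cancel, sub_add_cancel]

lemma smul_elt (g : ℕ → MvPolynomial (Fin n) k) (hg : Admissible g) (P : DOp k n)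
    (r r' c : MvPolynomial (Fin n) k)
    (hc : ∀ᶠ N in Filter.atTop, P • (r * g N) = (P • r) * g N + c) :
    P • elt g hg r r' = elt g hg (P • r) (c + P • r') := by
  apply Subtype.ext
  refine (map_smul (Zseq k n).mkQ P (gm g r r')).symm.trans ?_
  refine mk_eq_mk.2 ?_
  filter_upwards [hc] with N h1
  simp only [gm, Pi.smul_apply, smul_add, h1]
  ring

lemma smul_elt_zero (g : ℕ → MvPolynomial (Fin n) k) (hg : Admissible g) (P : DOp k n)
    (r' : MvPolynomial (Fin n) k) :
    P • elt g hg 0 r' = elt g hg 0 (P • r') := by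
  have := smul_elt g hg P 0 r' 0 (Filter.Eventually.of_forall fun N => by
    rw [zero_mul, smul_zero, zero_mul, zero_add])
  rw [this, smul_zero, zero_add]

/-- The constant class of a polynomial, as an element of the extension. -/
noncomputable def constClass (g : ℕ → MvPolynomial (Fin n) k) (hg : Admissible g) :
    MvPolynomial (Fin n) k →ₗ[DOp k n] Ext g hg where
  toFun r' := elt g hg 0 r'
  map_add' r s := by
    rw [← elt_add, add_zero]
  map_smul' P r := by
    rw [smul_elt_zero, RingHom.id_apply]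

/-- The submodule `R` of the extension. -/
noncomputable def sub (g : ℕ → MvPolynomial (Fin n) k) (hg : Admissible g) :
    Submodule (DOp k n) (Ext g hg) := LinearMap.range (constClass g hg)

lemma elt_mem_sub (g : ℕ → MvPolynomial (Fin n) k) (hg : Admissible g)
    (r' : MvPolynomial (Fin n) k) : elt g hg 0 r' ∈ sub g hg := ⟨r', rfl⟩

lemma constClass_injective (g : ℕ → MvPolynomial (Fin n) k) (hg : Admissible g) :
    Function.Injective (constClass g hg) := fun _ _ h => ((elt_inj g hg).1 h).2

/-- `R` is isomorphic to the submodule. -/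
noncomputable def subEquiv (g : ℕ → MvPolynomial (Fin n) k) (hg : Admissible g) :
    sub g hg ≃ₗ[DOp k n] MvPolynomial (Fin n) k :=
  (LinearEquiv.ofInjective _ (constClass_injective g hg)).symm

/-- The quotient map `R → M / M'`. -/
noncomputable def toQuot (g : ℕ → MvPolynomial (Fin n) k) (hg : Admissible g) :
    MvPolynomial (Fin n) k →ₗ[DOp k n] (Ext g hg ⧸ sub g hg) where
  toFun r := Submodule.Quotient.mk (elt g hg r 0)
  map_add' r s := by
    rw [← Submodule.Quotient.mk_add, ← elt_add, add_zero]
  map_smul' P r := by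
    obtain ⟨c, hc⟩ := hg.comm P r
    rw [RingHom.id_apply, ← Submodule.Quotient.mk_smul, smul_elt g hg P r 0 c hc]
    refine (Submodule.Quotient.eq _).2 ?_
    rw [← elt_sub, sub_self]
    exact elt_mem_sub g hg _

lemma toQuot_bijective (g : ℕ → MvPolynomial (Fin n) k) (hg : Admissible g) :
    Function.Bijective (toQuot g hg) := by
  constructor
  · rw [injective_iff_map_eq_zero]
    intro r hr
    obtain ⟨r', hr'⟩ := (Submodule.Quotient.mk_eq_zero _).1 hr
    exact ((elt_inj g hg).1 hr').1.symm
  · intro x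
    obtain ⟨y, rfl⟩ := Submodule.Quotient.mk_surjective _ x
    obtain ⟨r, r', rfl⟩ := elt_surj g hg y
    refine ⟨r, (Submodule.Quotient.eq _).2 ?_⟩
    rw [← elt_sub, sub_self]
    exact elt_mem_sub g hg _

/-- The quotient is isomorphic to `R`. -/
noncomputable def quotEquiv (g : ℕ → MvPolynomial (Fin n) k) (hg : Admissible g) :
    (Ext g hg ⧸ sub g hg) ≃ₗ[DOp k n] MvPolynomial (Fin n) k :=
  (LinearEquiv.ofBijective _ (toQuot_bijective g hg)).symm

end Extension

end Pool.Agent.Lib.MP_66748c_al
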