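import Mathlib
import Pool.Agent.Lib.MP_66748c_al.Basic

open MvPolynomial

universe u

namespace Pool.Agent.Lib.MP_66748c_al

section Transfer

variable {k : Type u} [Field k] {n : ℕ}

lemma Holonomic.of_equiv {M N : Type u} [AddCommGroup M] [Module (DOp k n) M] [Module k M]
    [IsScalarTower k (DOp k n) M] [AddCommGroup N] [Module (DOp k n) N] [Module k N]
    [IsScalarTower k (DOp k n) N] (e : N ≃ₗ[DOp k n] M) (h : Holonomic k n M) :
    Holonomic k n N := by
  obtain ⟨Mf, hf, C, hC⟩ := h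
  let ek : N ≃ₗ[k] M := e.restrictScalars k
  refine ⟨fun i => (Mf i).map (ek.symm : M →ₗ[k] N), ⟨?_, ?_, ?_⟩, C, ?_⟩
  · intro i j hij
    exact Submodule.map_mono (hf.mono hij)
  · intro m
    obtain ⟨i, hi⟩ := hf.exhaustive (e m)
    exact ⟨i, e m, hi, e.symm_apply_apply m⟩
  · rintro i j P hP _ ⟨m, hm, rfl⟩
    refine ⟨P • m, hf.smul_mem i j P hP m hm, ?_⟩
    exact map_smul e.symm P m
  · intro i hi
    refine le_trans (le_of_eq ?_) (hC i hi)
    exact (LinearEquiv.rank_eq (ek.symm.submoduleMap (Mf i))).symm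

/-- The polynomials all of whose exponents are at most `i`. -/
noncomputable def Rf (k : Type u) [Field k] (n : ℕ) (i : ℕ) :
    Submodule k (MvPolynomial (Fin n) k) :=
  Submodule.span k {f | ∃ m : Fin n →₀ ℕ, (∀ l, m l ≤ i) ∧ f = monomial m 1}

lemma monomial_mem_Rf {i : ℕ} {m : Fin n →₀ ℕ} (hm : ∀ l, m l ≤ i) (c : k) :
    monomial m c ∈ Rf k n i := by
  have : monomial m c = c • monomial m (1 : k) := by rw [smul_monomial, smul_eq_mul, mul_one]
  rw [this]
  exact Submodule.smul_mem _ _ (Submodule.subset_span ⟨m, hm, rfl⟩)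

lemma Rf_mono : Monotone (Rf k n) := by
  intro i j hij
  refine Submodule.span_mono ?_
  rintro _ ⟨m, hm, rfl⟩
  exact ⟨m, fun l => (hm l).trans hij, rfl⟩

lemma rank_Rf_le (i : ℕ) : Module.rank k (Rf k n i) ≤ (((i + 1) ^ n : ℕ) : Cardinal) := by
  refine (rank_span_le _).trans ?_
  let F : (Fin n → Fin (i + 1)) → MvPolynomial (Fin n) k := fun β =>
    monomial (Finsupp.equivFunOnFinite.symm fun l => (β l : ℕ)) 1
  have hsub : {f | ∃ m : Fin n →₀ ℕ, (∀ l, m l ≤ i) ∧ f = monomial m (1 : k)} ⊆ Set.range F := by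
    rintro _ ⟨m, hm, rfl⟩
    refine ⟨fun l => ⟨m l, Nat.lt_succ_of_le (hm l)⟩, ?_⟩
    simp only [F]
    congr 1
    congr 1
    ext l
    simp
  refine (Cardinal.mk_le_mk_of_subset hsub).trans ?_
  have h1 := Cardinal.mk_range_le_lift (f := F)
  have h2 : Cardinal.mk (Fin n → Fin (i + 1)) = (((i + 1) ^ n : ℕ) : Cardinal) := by simp
  rw [h2, Cardinal.lift_natCast, Cardinal.lift_uzero] at h1
  exact h1

lemma divD_mem_Rf (i : Fin n) (t j : ℕ) {f : MvPolynomial (Fin n) k} (hf : f ∈ Rf k n j) :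
    divD k n i t f ∈ Rf k n j := by
  induction hf using Submodule.span_induction with
  | zero => simp
  | add x y _ _ hx hy => rw [map_add]; exact Submodule.add_mem _ hx hy
  | smul c x _ hx => rw [map_smul]; exact Submodule.smul_mem _ _ hx
  | mem x hx =>
    obtain ⟨m, hm, rfl⟩ := hx
    rw [divD_monomial]
    refine monomial_mem_Rf (fun l => ?_) _
    rw [Finsupp.coe_tsub, Pi.sub_apply]
    exact (Nat.sub_le _ _).trans (hm l)

lemma prod_mem_Rf (L : List (Module.End k (MvPolynomial (Fin n) k)))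
    (hL : ∀ P ∈ L, ∃ i t, P = divD k n i t) (j : ℕ) {f : MvPolynomial (Fin n) k}
    (hf : f ∈ Rf k n j) : L.prod f ∈ Rf k n j := by
  induction L with
  | nil => simpa using hf
  | cons P L ih =>
    rw [List.prod_cons, Module.End.mul_apply]
    obtain ⟨i, t, rfl⟩ := hL P List.mem_cons_self
    exact divD_mem_Rf i t j (ih fun Q hQ => hL Q (List.mem_cons_of_mem _ hQ))

lemma prod_X_pow (a : Fin n → ℕ) : (∏ i, X i ^ a i : MvPolynomial (Fin n) k) =
    monomial (Finsupp.equivFunOnFinite.symm a) 1 := by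
  rw [MvPolynomial.monomial_eq, C_1, one_mul, Finsupp.prod_fintype]
  · rfl
  · intro i
    rw [pow_zero]

lemma mul_monomial_mem_Rf (a : Fin n → ℕ) {s j : ℕ} (ha : ∀ l, a l ≤ s)
    {f : MvPolynomial (Fin n) k} (hf : f ∈ Rf k n j) :
    monomial (Finsupp.equivFunOnFinite.symm a) 1 * f ∈ Rf k n (s + j) := by
  induction hf using Submodule.span_induction with
  | zero => simp
  | add x y _ _ hx hy => rw [mul_add]; exact Submodule.add_mem _ hx hy
  | smul c x _ hx => rw [mul_smul_comm]; exact Submodule.smul_mem _ _ hx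
  | mem x hx =>
    obtain ⟨m, hm, rfl⟩ := hx
    rw [monomial_mul]
    refine monomial_mem_Rf (fun l => ?_) _
    rw [Finsupp.add_apply]
    exact Nat.add_le_add (ha l) (hm l)

lemma holonomic_R : Holonomic k n (MvPolynomial (Fin n) k) := by
  refine ⟨Rf k n, ⟨Rf_mono, ?_, ?_⟩, 2 ^ n, ?_⟩
  · intro f
    induction f using MvPolynomial.induction_on' with
    | monomial m c =>
      exact ⟨∑ l, m l, monomial_mem_Rf
        (fun l => Finset.single_le_sum (fun _ _ => Nat.zero_le _) (Finset.mem_univ l)) c⟩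
    | add p q hp hq =>
      obtain ⟨i, hi⟩ := hp
      obtain ⟨j, hj⟩ := hq
      exact ⟨max i j, Submodule.add_mem _ (Rf_mono (le_max_left _ _) hi)
        (Rf_mono (le_max_right _ _) hj)⟩
  · intro i j P hP f hf
    induction hP using Submodule.span_induction with
    | zero => rw [zero_smul]; exact Submodule.zero_mem _
    | add x y _ _ hx hy => rw [add_smul]; exact Submodule.add_mem _ hx hy
    | smul c x _ hx => rw [smul_assoc]; exact Submodule.smul_mem _ _ hx
    | mem P hP =>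
      obtain ⟨a, t, hat, hPe⟩ := hP
      rw [smul_def, hPe, Module.End.mul_apply, LinearMap.mulLeft_apply, prod_X_pow]
      refine mul_monomial_mem_Rf a (fun l => ?_) (prod_mem_Rf _ ?_ j hf)
      · refine le_trans ?_ ((Nat.le_add_right _ _).trans hat)
        exact Finset.single_le_sum (fun _ _ => Nat.zero_le _) (Finset.mem_univ l)
      · intro Q hQ
        rw [List.mem_ofFn] at hQ
        obtain ⟨l, rfl⟩ := hQ
        exact ⟨l, t l, rfl⟩
  · intro i hi
    refine (rank_Rf_le i).trans ?_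
    rw [Nat.cast_le, ← mul_pow]
    exact Nat.pow_le_pow_left (by omega) n

end Transfer

section Sequence

variable (p : ℕ)

/-- The exponents. -/
def ex (κ l : ℕ) : ℕ := p ^ (κ ^ 2) * (p ^ κ * (2 * p ^ κ - l) + l)

variable (k : Type u) [Field k]

/-- The blocks of the formal sum. -/
noncomputable def blk (κ : ℕ) : Polynomial k :=
  ∑ l ∈ Finset.Ioo 0 (p ^ κ), Polynomial.X ^ (ex p κ l)

/-- The partial sums. -/
noncomputable def psum (N : ℕ) : Polynomial k := ∑ κ ∈ Finset.range N, blk p k κ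

variable {p k}

lemma coeff_psum (N x : ℕ) : (psum p k N).coeff x =
    ∑ κ ∈ Finset.range N, ∑ l ∈ Finset.Ioo 0 (p ^ κ), if x = ex p κ l then 1 else 0 := by
  rw [psum, Polynomial.finsetSum_coeff]
  refine Finset.sum_congr rfl fun κ _ => ?_
  rw [blk, Polynomial.finsetSum_coeff]
  refine Finset.sum_congr rfl fun l _ => ?_
  rw [Polynomial.coeff_X_pow]

lemma ex_lt [hp : Fact p.Prime] {κ' κ l : ℕ} (h : κ' < κ) (hl : 0 < l) (hl' : l < p ^ κ') :
    ex p κ' l < p ^ (κ ^ 2) := by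
  have hm : 1 ≤ p ^ κ' := Nat.one_le_pow _ _ hp.out.pos
  have h1 : p ^ κ' * (2 * p ^ κ' - l) + l ≤ 2 * (p ^ κ' * p ^ κ') := by
    obtain ⟨e, he⟩ := Nat.exists_eq_add_of_lt hl'
    have h2 : 2 * p ^ κ' - l = p ^ κ' + (e + 1) := by omega
    rw [h2]
    nlinarith
  have h3 : 1 < p ^ κ' := by omega
  have hκ' : 0 < κ' := by
    rcases Nat.eq_zero_or_pos κ' with h0 | h0
    · subst h0
      simp at h3
    · exact h0
  have h4 : p ^ κ' * (2 * p ^ κ' - l) + l < 2 * (p ^ κ' * p ^ κ') := by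
    obtain ⟨e, he⟩ := Nat.exists_eq_add_of_lt hl'
    have h2 : 2 * p ^ κ' - l = p ^ κ' + (e + 1) := by omega
    rw [h2]
    nlinarith
  calc ex p κ' l < p ^ (κ' ^ 2) * (2 * (p ^ κ' * p ^ κ')) := by
        rw [ex]
        exact Nat.mul_lt_mul_of_pos_left h4 (Nat.pow_pos hp.out.pos)
    _ ≤ p ^ (κ' ^ 2) * (p * (p ^ κ' * p ^ κ')) :=
        Nat.mul_le_mul_left _ (Nat.mul_le_mul_right _ hp.out.two_le)
    _ = p ^ ((κ' + 1) ^ 2) := by ring
    _ ≤ p ^ (κ ^ 2) := Nat.pow_le_pow_right hp.out.pos (Nat.pow_le_pow_left h 2)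

/-- The leading exponents. -/
def dd (p κ j : ℕ) : ℕ := p ^ (κ ^ 2) * (p ^ κ * (2 * p ^ κ - j))

lemma ex_key [hp : Fact p.Prime] {κ j l c : ℕ} (hj' : j < p ^ κ) (hl' : l < p ^ κ)
    (hc : dd p κ j ≤ c) (he : c + p ^ (κ ^ 2) * j = ex p κ l) : l ≤ j := by
  by_contra hlt
  push Not at hlt
  have hq : 0 < p ^ (κ ^ 2) := Nat.pow_pos hp.out.pos
  have h1 : p ^ κ * (2 * p ^ κ - l) + l < p ^ κ * (2 * p ^ κ - j) + j := by
    obtain ⟨e, rfl⟩ := Nat.exists_eq_add_of_lt hlt
    have h2 : 2 * p ^ κ - j = (2 * p ^ κ - (j + e + 1)) + (e + 1) := by omega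
    rw [h2, mul_add]
    nlinarith
  have h2 : ex p κ l < dd p κ j + p ^ (κ ^ 2) * j := by
    rw [ex, dd, ← mul_add]
    exact Nat.mul_lt_mul_of_pos_left h1 hq
  omega

lemma ex_eq {κ j : ℕ} : dd p κ j + p ^ (κ ^ 2) * j = ex p κ j := by
  rw [ex, dd, ← mul_add]

variable [CharP k p]

/-- Coefficients of the divided derivatives. -/
lemma coeff_hasse [hp : Fact p.Prime] {κ j c : ℕ} (hj : 0 < j) (hj' : j < p ^ κ)
    (hc : dd p κ j ≤ c) :
    (Polynomial.hasseDeriv (p ^ (κ ^ 2) * j) (psum p k (κ + 1))).coeff c =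
      if c = dd p κ j then 1 else 0 := by
  rw [Polynomial.hasseDeriv_coeff, coeff_psum, Finset.sum_range_succ]
  have hq : 0 < p ^ (κ ^ 2) := Nat.pow_pos hp.out.pos
  have h1 : ∑ κ' ∈ Finset.range κ, ∑ l ∈ Finset.Ioo 0 (p ^ κ'),
      (if c + p ^ (κ ^ 2) * j = ex p κ' l then (1 : k) else 0) = 0 := by
    refine Finset.sum_eq_zero fun κ' hκ' => Finset.sum_eq_zero fun l hl => ?_
    rw [Finset.mem_range] at hκ'
    rw [Finset.mem_Ioo] at hl
    have h2 := ex_lt hκ' hl.1 hl.2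
    have h3 : p ^ (κ ^ 2) ≤ p ^ (κ ^ 2) * j := Nat.le_mul_of_pos_right _ hj
    rw [if_neg (by omega)]
  rw [h1, zero_add, Finset.mul_sum]
  have h2 : ∀ l ∈ Finset.Ioo 0 (p ^ κ), l ≠ j →
      (((c + p ^ (κ ^ 2) * j).choose (p ^ (κ ^ 2) * j) : ℕ) : k) *
        (if c + p ^ (κ ^ 2) * j = ex p κ l then (1 : k) else 0) = 0 := by
    intro l hl hlj
    rw [Finset.mem_Ioo] at hl
    split_ifs with he
    · have hle := ex_key hj' hl.2 hc he
      have hlt : l < j := lt_of_le_of_ne hle hlj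
      rw [he, ex, cast_choose_mul, cast_choose_add k hj', Nat.choose_eq_zero_of_lt hlt]
      simp
    · rw [mul_zero]
  rw [Finset.sum_eq_single j h2]
  · by_cases hcd : c = dd p κ j
    · rw [if_pos (by rw [hcd, ex_eq]), if_pos hcd, hcd, ex_eq, ex, cast_choose_mul,
        cast_choose_add k hj', Nat.choose_self]
      simp
    · rw [if_neg hcd, if_neg, mul_zero]
      rw [← ex_eq]
      omega
  · intro h
    exact absurd (Finset.mem_Ioo.2 ⟨hj, hj'⟩) h

end Sequence

end Pool.Agent.Lib.MP_66748c_al
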