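import Mathlib
import Pool.Agent.Lib.MP_66748c_al.Sequence

open MvPolynomial

universe u

namespace Pool.Agent.Lib.MP_66748c_al

section Iota

variable {k : Type u} [Field k] {n : ℕ}

/-- The inclusion of one-variable polynomials in the variable `x_i`. -/
noncomputable def iota (i : Fin n) : Polynomial k →ₗ[k] MvPolynomial (Fin n) k :=
  (Polynomial.basisMonomials k).constr k fun e => monomial (Finsupp.single i e) 1

lemma iota_monomial (i : Fin n) (e : ℕ) (c : k) :
    iota i (Polynomial.monomial e c) = monomial (Finsupp.single i e) c := by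
  have h1 : Polynomial.monomial e c = c • (Polynomial.basisMonomials k) e := by
    rw [Polynomial.coe_basisMonomials, Polynomial.smul_monomial, smul_eq_mul, mul_one]
  rw [h1, map_smul, iota, Module.Basis.constr_basis, smul_monomial, smul_eq_mul, mul_one]

lemma divD_iota (i : Fin n) (t : ℕ) (f : Polynomial k) :
    divD k n i t (iota i f) = iota i (Polynomial.hasseDeriv t f) := by
  induction f using Polynomial.induction_on' with
  | add p q hp hq => rw [map_add, map_add, map_add, map_add, hp, hq]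
  | monomial e c =>
    rw [iota_monomial, divD_monomial, Polynomial.hasseDeriv_monomial, iota_monomial,
      Finsupp.single_eq_same, ← Finsupp.single_tsub, mul_comm]

lemma coeff_iota (i : Fin n) (f : Polynomial k) (c : ℕ) :
    coeff (Finsupp.single i c) (iota i f) = f.coeff c := by
  induction f using Polynomial.induction_on' with
  | add p q hp hq => rw [map_add, coeff_add, Polynomial.coeff_add, hp, hq]
  | monomial e a =>
    rw [iota_monomial, coeff_monomial, Polynomial.coeff_monomial]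
    by_cases h : e = c
    · rw [if_pos (by rw [h]), if_pos h]
    · rw [if_neg, if_neg h]
      intro h'
      exact h (Finsupp.single_injective i h')

lemma coeff_iota_of_ne (i : Fin n) (f : Polynomial k) (m : Fin n →₀ ℕ) {l : Fin n} (hl : l ≠ i)
    (hm : m l ≠ 0) : coeff m (iota i f) = 0 := by
  induction f using Polynomial.induction_on' with
  | add p q hp hq => rw [map_add, coeff_add, hp, hq, add_zero]
  | monomial e a =>
    rw [iota_monomial, coeff_monomial, if_neg]
    rintro rfl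
    exact hm (Finsupp.single_eq_of_ne hl)

end Iota

section Main

variable (p : ℕ) [hp : Fact p.Prime] (k : Type u) [Field k] [CharP k p] {n : ℕ} (i : Fin n)

/-- The sequence of polynomials. -/
noncomputable def gseq (N : ℕ) : MvPolynomial (Fin n) k := iota i (psum p k N)

omit hp [CharP k p] in
lemma iota_blk_mem {κ T : ℕ} (h : T ≤ κ) : iota i (blk p k κ) ∈ Cst k i (p ^ T) := by
  rw [blk, map_sum]
  refine Submodule.sum_mem _ fun l _ => ?_
  rw [← Polynomial.monomial_one_right_eq_X_pow, iota_monomial]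
  have h1 : T ≤ κ ^ 2 := h.trans (Nat.le_self_pow (by norm_num) κ)
  obtain ⟨e, he⟩ := Nat.exists_eq_add_of_le h1
  refine Submodule.subset_span ⟨p ^ e * (p ^ κ * (2 * p ^ κ - l) + l), ?_⟩
  rw [ex, he, pow_add, mul_assoc]

omit hp [CharP k p] in
lemma gseq_sub_mem {T N : ℕ} (h : T ≤ N) : gseq p k i N - gseq p k i T ∈ Cst k i (p ^ T) := by
  induction N, h using Nat.le_induction with
  | base => rw [sub_self]; exact Submodule.zero_mem _
  | succ N hN ih =>
    have h1 : gseq p k i (N + 1) - gseq p k i T =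
        (gseq p k i N - gseq p k i T) + iota i (blk p k N) := by
      simp only [gseq, psum, Finset.sum_range_succ, map_add]
      ring
    rw [h1]
    exact Submodule.add_mem _ ih (iota_blk_mem p k i hN)

omit [CharP k p] in
lemma blk_coeff_ne {κ : ℕ} (hκ : 1 ≤ κ) : (blk p k κ).coeff (ex p κ 1) = 1 := by
  rw [blk, Polynomial.finsetSum_coeff]
  have hm : 1 < p ^ κ := Nat.one_lt_pow (by omega) hp.out.one_lt
  rw [Finset.sum_eq_single 1]
  · rw [Polynomial.coeff_X_pow, if_pos rfl]
  · intro l hl hl1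
    rw [Finset.mem_Ioo] at hl
    rw [Polynomial.coeff_X_pow, if_neg]
    intro h
    have h1 := ex_key (p := p) (κ := κ) (j := 1) (l := l) (c := dd p κ 1) hm hl.2 le_rfl
      (by rw [ex_eq, h])
    omega
  · intro h
    exact absurd (Finset.mem_Ioo.2 ⟨Nat.one_pos, hm⟩) h

lemma gseq_admissible : Admissible (gseq p k i) := by
  refine ⟨?_, ?_⟩
  · intro P r
    obtain ⟨T, hT⟩ := diffOp_comm (p := p) i P.1 P.2
    refine ⟨P • (r * gseq p k i T) - (P • r) * gseq p k i T, ?_⟩
    filter_upwards [Filter.eventually_ge_atTop T] with N hN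
    have h1 : r * gseq p k i N = r * gseq p k i T + (gseq p k i N - gseq p k i T) * r := by ring
    rw [h1, smul_add, smul_def P ((gseq p k i N - gseq p k i T) * r),
      hT _ (gseq_sub_mem p k i hN), ← smul_def]
    ring
  · intro r r' h
    obtain ⟨N0, hN0⟩ := Filter.eventually_atTop.1 h
    have h1 := hN0 (N0 + 1) (by omega)
    have h2 := hN0 (N0 + 2) (by omega)
    have h3 : gseq p k i (N0 + 2) = gseq p k i (N0 + 1) + iota i (blk p k (N0 + 1)) := by
      rw [gseq, psum, Finset.sum_range_succ, map_add, gseq, psum]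
    have h4 : r * iota i (blk p k (N0 + 1)) = 0 := by
      rw [h3] at h2
      linear_combination h2 - h1
    have h5 : iota i (blk p k (N0 + 1)) ≠ 0 := by
      intro h0
      have h6 := coeff_iota i (blk p k (N0 + 1)) (ex p (N0 + 1) 1)
      rw [h0, blk_coeff_ne p k (by omega)] at h6
      simp at h6
    have h6 : r = 0 := (mul_eq_zero.1 h4).resolve_right h5
    refine ⟨h6, ?_⟩
    rw [h6, zero_mul, zero_add] at h1
    exact h1

/-- The index type of the independent family in stage `κ`. -/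
abbrev Idx (p n κ : ℕ) : Type := (Fin n → Fin (p ^ (κ ^ 2) * p ^ κ)) × Fin (p ^ κ - 1)

/-- The exponent vector attached to an index. -/
noncomputable def bvec {p n κ : ℕ} (x : Idx p n κ) : Fin n →₀ ℕ :=
  Finsupp.equivFunOnFinite.symm fun l => (x.1 l : ℕ)

/-- The polynomials `D_{jq} g`. -/
noncomputable def Gj (κ j : ℕ) : Polynomial k :=
  Polynomial.hasseDeriv (p ^ (κ ^ 2) * j) (psum p k (κ + 1))

/-- The independent family. -/
noncomputable def vec {κ : ℕ} (x : Idx p n κ) : MvPolynomial (Fin n) k :=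
  monomial (bvec x) 1 * iota i (Gj p k κ (x.2 + 1))

/-- The leading degree in `x_i`. -/
def wt {κ : ℕ} (x : Idx p n κ) : ℕ := x.1 i + dd p κ (x.2 + 1)

omit hp in
lemma wt_inj (p : ℕ) {κ : ℕ} {a b c d : ℕ} (ha : a < p ^ (κ ^ 2) * p ^ κ) (hb : b < p ^ (κ ^ 2) * p ^ κ)
    (hc : c ≤ p ^ κ) (hd : d ≤ p ^ κ) (h : a + dd p κ c = b + dd p κ d) : a = b ∧ c = d := by
  have e : ∀ j, dd p κ j = (p ^ (κ ^ 2) * p ^ κ) * (2 * p ^ κ - j) := by
    intro j
    rw [dd, mul_assoc]
  rw [e, e] at h
  have hQ : 0 < p ^ (κ ^ 2) * p ^ κ := lt_of_le_of_lt (Nat.zero_le _) ha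
  have h1 := congrArg (fun x => x % (p ^ (κ ^ 2) * p ^ κ)) h
  have h2 := congrArg (fun x => x / (p ^ (κ ^ 2) * p ^ κ)) h
  simp only [Nat.add_mul_mod_self_left, Nat.mod_eq_of_lt ha, Nat.mod_eq_of_lt hb] at h1
  simp only [Nat.add_mul_div_left _ _ hQ, Nat.div_eq_of_lt ha, Nat.div_eq_of_lt hb] at h2
  exact ⟨h1, by omega⟩

lemma coeff_vec {κ : ℕ} (x y : Idx p n κ) (h : wt p i x ≤ wt p i y) :
    coeff (bvec y + Finsupp.single i (dd p κ (y.2 + 1))) (vec p k i x) =
      if x = y then 1 else 0 := by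
  have hx2 : (x.2 : ℕ) + 1 < p ^ κ := by
    have := x.2.2
    omega
  have hy2 : (y.2 : ℕ) + 1 < p ^ κ := by
    have := y.2.2
    omega
  rw [vec, coeff_monomial_mul', one_mul]
  split_ifs with hle hxy hxy
  · subst hxy
    rw [add_tsub_cancel_left, coeff_iota, Gj, coeff_hasse (j := (x.2 : ℕ) + 1) (Nat.succ_pos _) hx2 le_rfl,
      if_pos rfl]
  · have hlei : (x.1 i : ℕ) ≤ y.1 i + dd p κ (y.2 + 1) := by
      have h1 := hle i
      rw [Finsupp.add_apply, Finsupp.single_eq_same] at h1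
      exact h1
    rw [wt, wt] at h
    by_cases hall : ∀ l, l ≠ i → (x.1 l : ℕ) = y.1 l
    · have e1 : bvec y + Finsupp.single i (dd p κ (y.2 + 1)) - bvec x =
          Finsupp.single i ((y.1 i + dd p κ (y.2 + 1)) - x.1 i) := by
        ext l
        rw [Finsupp.tsub_apply, Finsupp.add_apply]
        rcases eq_or_ne l i with rfl | hl
        · rw [Finsupp.single_eq_same, Finsupp.single_eq_same]
          rfl
        · rw [Finsupp.single_eq_of_ne hl, Finsupp.single_eq_of_ne hl]
          have := hall l hl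
          show (y.1 l : ℕ) + 0 - (x.1 l : ℕ) = 0
          omega
      rw [e1, coeff_iota, Gj, coeff_hasse (j := (x.2 : ℕ) + 1) (Nat.succ_pos _) hx2 (by omega), if_neg]
      intro he
      apply hxy
      have h1 : (x.1 i : ℕ) + dd p κ (x.2 + 1) = y.1 i + dd p κ (y.2 + 1) := by omega
      obtain ⟨h2, h3⟩ := wt_inj p (x.1 i).2 (y.1 i).2 hx2.le hy2.le h1
      refine Prod.ext ?_ (Fin.ext (by omega))
      funext l
      apply Fin.ext
      rcases eq_or_ne l i with rfl | hl
      · exact h2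
      · exact hall l hl
    · push Not at hall
      obtain ⟨l, hl, hne⟩ := hall
      apply coeff_iota_of_ne i _ _ hl
      rw [Finsupp.tsub_apply, Finsupp.add_apply, Finsupp.single_eq_of_ne hl]
      have h1 := hle l
      rw [Finsupp.add_apply, Finsupp.single_eq_of_ne hl] at h1
      have h2 : (x.1 l : ℕ) ≤ y.1 l + 0 := h1
      show (y.1 l : ℕ) + 0 - (x.1 l : ℕ) ≠ 0
      omega
  · subst hxy
    exact absurd (le_self_add) hle
  · rfl

lemma vec_indep (κ : ℕ) : LinearIndependent k (vec p k i : Idx p n κ → _) := by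
  classical
  rw [Fintype.linearIndependent_iff]
  intro c hc
  by_contra hne
  push Not at hne
  obtain ⟨x0, hx0⟩ := hne
  obtain ⟨y, hy, hmax⟩ := Finset.exists_max_image (Finset.univ.filter fun x : Idx p n κ => c x ≠ 0)
    (wt p i) ⟨x0, by simpa using hx0⟩
  have h1 := congrArg (coeff (bvec y + Finsupp.single i (dd p κ (y.2 + 1)))) hc
  rw [coeff_sum, coeff_zero, Finset.sum_eq_single y] at h1
  · rw [coeff_smul, coeff_vec p k i y y le_rfl, if_pos rfl, smul_eq_mul, mul_one] at h1
    exact (Finset.mem_filter.1 hy).2 h1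
  · intro x _ hxy
    by_cases hcx : c x = 0
    · rw [hcx, zero_smul, coeff_zero]
    · rw [coeff_smul, coeff_vec p k i x y (hmax x (by simpa using hcx)), if_neg hxy, smul_zero]
  · intro h
    exact absurd (Finset.mem_univ y) h

/-- The operators used. -/
noncomputable def opr {κ : ℕ} (x : Idx p n κ) : DOp k n :=
  ⟨LinearMap.mulLeft k (monomial (bvec x) 1), mulLeft_mem _⟩ *
    ⟨divD k n i (p ^ (κ ^ 2) * (x.2 + 1)), divD_mem _ _⟩

omit hp [CharP k p] in
lemma opr_smul {κ : ℕ} (x : Idx p n κ) (f : MvPolynomial (Fin n) k) :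
    opr p k i x • f = monomial (bvec x) 1 * divD k n i (p ^ (κ ^ 2) * (x.2 + 1)) f := rfl

omit hp [CharP k p] in
lemma divD_one (t : ℕ) (ht : 0 < t) : divD k n i t 1 = 0 := by
  have h1 : (1 : MvPolynomial (Fin n) k) = monomial 0 1 := rfl
  rw [h1, divD_monomial, Finsupp.coe_zero, Pi.zero_apply, Nat.choose_eq_zero_of_lt ht]
  simp

lemma divD_gseq {κ j N : ℕ} (hj : 0 < j) (hj' : j < p ^ κ) (hN : κ + 1 ≤ N) :
    divD k n i (p ^ (κ ^ 2) * j) (gseq p k i N) = iota i (Gj p k κ j) := by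
  have hq : 0 < p ^ (κ ^ 2) := Nat.pow_pos hp.out.pos
  have h1 : ∀ N, κ + 1 ≤ N → divD k n i (p ^ (κ ^ 2) * j) (iota i (blk p k N)) = 0 := by
    intro N hN
    have hlt : p ^ (κ ^ 2) * j < p ^ (N ^ 2) := by
      calc p ^ (κ ^ 2) * j < p ^ (κ ^ 2) * p ^ κ := Nat.mul_lt_mul_of_pos_left hj' hq
        _ = p ^ (κ ^ 2 + κ) := by rw [pow_add]
        _ ≤ p ^ (N ^ 2) := Nat.pow_le_pow_right hp.out.pos (by nlinarith)
    have hmem : iota i (blk p k N) ∈ Cst k i (p ^ (N ^ 2)) := by
      rw [blk, map_sum]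
      refine Submodule.sum_mem _ fun l _ => ?_
      rw [← Polynomial.monomial_one_right_eq_X_pow, iota_monomial]
      exact Submodule.subset_span ⟨_, rfl⟩
    have h2 := divD_comm (p := p) i i _ (N ^ 2) hlt _ hmem 1
    rw [mul_one, divD_one k i _ (Nat.mul_pos hq hj), mul_zero] at h2
    exact h2
  induction N, hN using Nat.le_induction with
  | base => rw [gseq, divD_iota, Gj]
  | succ N hN ih =>
    have h2 : gseq p k i (N + 1) = gseq p k i N + iota i (blk p k N) := by
      simp only [gseq, psum, Finset.sum_range_succ, map_add]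
    rw [h2, map_add, ih, h1 N hN, add_zero]

lemma opr_elt {κ : ℕ} (x : Idx p n κ) :
    opr p k i x • elt (gseq p k i) (gseq_admissible p k i) 1 0 =
      elt (gseq p k i) (gseq_admissible p k i) 0 (vec p k i x) := by
  have hx2 : (x.2 : ℕ) + 1 < p ^ κ := by
    have := x.2.2
    omega
  have hpos : 0 < p ^ (κ ^ 2) * ((x.2 : ℕ) + 1) :=
    Nat.mul_pos (Nat.pow_pos hp.out.pos) (Nat.succ_pos _)
  have h0 : opr p k i x • (1 : MvPolynomial (Fin n) k) = 0 := by
    rw [opr_smul, divD_one k i _ hpos, mul_zero]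
  rw [smul_elt (gseq p k i) _ (opr p k i x) 1 0 (vec p k i x), h0, smul_zero, add_zero]
  filter_upwards [Filter.eventually_ge_atTop (κ + 1)] with N hN
  rw [h0, zero_mul, zero_add, one_mul, opr_smul, divD_gseq p k i (Nat.succ_pos _) hx2 hN]
  rfl

lemma prod_ofFn_single {M : Type*} [Monoid M] {n : ℕ} (f : Fin n → M) (i : Fin n)
    (h : ∀ l, l ≠ i → f l = 1) : (List.ofFn f).prod = f i := by
  induction n with
  | zero => exact i.elim0
  | succ n ih =>
    rw [List.ofFn_succ, List.prod_cons]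
    rcases Fin.eq_zero_or_eq_succ i with rfl | ⟨j, rfl⟩
    · have h1 : (List.ofFn fun l : Fin n => f l.succ).prod = 1 := by
        apply List.prod_eq_one
        intro x hx
        rw [List.mem_ofFn] at hx
        obtain ⟨l, rfl⟩ := hx
        exact h _ (Fin.succ_ne_zero l)
      rw [h1, mul_one]
    · rw [h 0 (Fin.succ_ne_zero j).symm, one_mul]
      exact ih (fun l => f l.succ) j fun l hl => h _ fun h' => hl (Fin.succ_injective _ h')

omit hp [CharP k p] in
lemma opr_mem {κ : ℕ} (x : Idx p n κ) :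
    opr p k i x ∈ bernstein k n ((n + 1) * (p ^ (κ ^ 2) * p ^ κ)) := by
  classical
  have hx2 : (x.2 : ℕ) + 1 < p ^ κ := by
    have := x.2.2
    omega
  refine Submodule.subset_span ⟨fun l => x.1 l, Pi.single i (p ^ (κ ^ 2) * (x.2 + 1)), ?_, ?_⟩
  · have h1 : ∑ l, (x.1 l : ℕ) ≤ n * (p ^ (κ ^ 2) * p ^ κ) := by
      have := Finset.sum_le_card_nsmul Finset.univ (fun l => (x.1 l : ℕ)) (p ^ (κ ^ 2) * p ^ κ)
        (fun l _ => (x.1 l).2.le)
      simpa using this
    have h2 : ∑ l, (Pi.single i (p ^ (κ ^ 2) * ((x.2 : ℕ) + 1)) : Fin n → ℕ) l =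
        p ^ (κ ^ 2) * (x.2 + 1) := by
      rw [Finset.sum_pi_single']
      simp
    have h3 : p ^ (κ ^ 2) * ((x.2 : ℕ) + 1) ≤ p ^ (κ ^ 2) * p ^ κ := Nat.mul_le_mul_left _ hx2.le
    rw [h2]
    linarith
  · rw [prod_ofFn_single _ i]
    · rw [Pi.single_eq_same, prod_X_pow]
      rfl
    · intro l hl
      rw [Pi.single_eq_of_ne hl, divD_zero]

/-- The extension is not holonomic. -/
lemma not_holonomic : ¬ Holonomic k n (Ext (gseq p k i) (gseq_admissible p k i)) := by
  rintro ⟨Mf, hf, C, hC⟩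
  have hn : 0 < n := lt_of_le_of_lt (Nat.zero_le _) i.2
  obtain ⟨i0, hi0⟩ := hf.exhaustive (elt (gseq p k i) (gseq_admissible p k i) 1 0)
  have key : ∀ κ : ℕ, (p ^ (κ ^ 2) * p ^ κ) ^ n * (p ^ κ - 1) ≤
      C * ((n + 1) * (p ^ (κ ^ 2) * p ^ κ) + i0) ^ n := by
    intro κ
    have hmem : ∀ x : Idx p n κ, elt (gseq p k i) (gseq_admissible p k i) 0 (vec p k i x) ∈
        Mf ((n + 1) * (p ^ (κ ^ 2) * p ^ κ) + i0) := by
      intro x
      rw [← opr_elt]
      exact hf.smul_mem _ _ _ (opr_mem p k i x) _ hi0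
    let v : Idx p n κ → Mf ((n + 1) * (p ^ (κ ^ 2) * p ^ κ) + i0) := fun x => ⟨_, hmem x⟩
    have hv : LinearIndependent k v := by
      apply LinearIndependent.of_comp (Submodule.subtype _)
      have h1 := (vec_indep p k i κ).map' ((constClass (gseq p k i)
        (gseq_admissible p k i)).restrictScalars k) (by
          rw [LinearMap.ker_eq_bot]
          exact constClass_injective _ _)
      exact h1
    have h2 := hv.cardinal_lift_le_rank
    have hQ : 0 < p ^ (κ ^ 2) * p ^ κ := Nat.mul_pos (Nat.pow_pos hp.out.pos)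
      (Nat.pow_pos hp.out.pos)
    have h3 := hC ((n + 1) * (p ^ (κ ^ 2) * p ^ κ) + i0) (by nlinarith)
    have h4 : Cardinal.mk (Idx p n κ) = (((p ^ (κ ^ 2) * p ^ κ) ^ n * (p ^ κ - 1) : ℕ) :
        Cardinal) := by
      simp [Idx]
    rw [h4, Cardinal.lift_natCast] at h2
    have h5 := h2.trans (Cardinal.lift_le.2 h3)
    rw [Cardinal.lift_natCast, Nat.cast_le] at h5
    exact h5
  set C' := C * (n + 1 + i0) ^ n with hC'
  have h1 := key (C' + 1)
  set Q := p ^ ((C' + 1) ^ 2) * p ^ (C' + 1) with hQdef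
  have hQ : 0 < Q := Nat.mul_pos (Nat.pow_pos hp.out.pos) (Nat.pow_pos hp.out.pos)
  have h2 : (n + 1) * Q + i0 ≤ (n + 1 + i0) * Q := by nlinarith
  have h3 : Q ^ n * (p ^ (C' + 1) - 1) ≤ Q ^ n * C' := by
    calc Q ^ n * (p ^ (C' + 1) - 1) ≤ C * ((n + 1) * Q + i0) ^ n := h1
      _ ≤ C * ((n + 1 + i0) * Q) ^ n := Nat.mul_le_mul_left _ (Nat.pow_le_pow_left h2 n)
      _ = Q ^ n * C' := by rw [mul_pow, hC']; ring
  have h4 : p ^ (C' + 1) - 1 ≤ C' := Nat.le_of_mul_le_mul_left h3 (Nat.pow_pos hQ)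
  have h5 : C' + 1 < p ^ (C' + 1) := Nat.lt_pow_self hp.out.one_lt
  omega

end Main

end Pool.Agent.Lib.MP_66748c_al
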